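import Mathlib

set_option autoImplicit false

namespace Pool.Agent.Results.MP_ace2a1_co.TwoEdgesFail

open Finset

variable {V : Type} [Fintype V] [DecidableEq V]

/-- The hyperedge set `E` is a chain-structured system: for some cyclic ordering
`σ 0, σ 1, …, σ (n-1)` of the vertex set every hyperedge is a (nonempty) run of cyclically
consecutive vertices. -/
def IsChainStructured (E : Finset (Finset V)) : Prop :=
  ∃ σ : ZMod (Fintype.card V) ≃ V, ∀ e ∈ E, ∃ (i : ZMod (Fintype.card V)) (l : ℕ),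
    1 ≤ l ∧ l ≤ Fintype.card V ∧ e = (range l).image (fun j : ℕ => σ (i + (j : ZMod (Fintype.card V))))

/-- Isomorphism of hypergraphs on the same vertex set. -/
def Isomorphic (E₁ E₂ : Finset (Finset V)) : Prop :=
  ∃ φ : Equiv.Perm V, E₂ = E₁.image (fun e => e.image φ)

/-- Exactly two hyperedges have two vertices, all others have at least three vertices. -/
def TwoTwoEdges (E : Finset (Finset V)) : Prop :=
  (E.filter (fun e => e.card = 2)).card = 2 ∧ ∀ e ∈ E, e.card = 2 ∨ 3 ≤ e.card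

/-- `I` contains no hyperedge. -/
def Independent (E : Finset (Finset V)) (I : Finset V) : Prop := ∀ e ∈ E, ¬ e ⊆ I

/-- A cooperative colouring of two hypergraphs. -/
def HasCooperativeColouring (E₁ E₂ : Finset (Finset V)) : Prop :=
  ∃ I₁ I₂ : Finset V, Independent E₁ I₁ ∧ Independent E₂ I₂ ∧ I₁ ∪ I₂ = univ

def H1 : Finset (Finset (Fin 6)) := {{0, 1}, {1, 2, 3}, {3, 4}, {4, 5, 0}}

def H2 : Finset (Finset (Fin 6)) := {{3, 0}, {0, 2, 4}, {4, 1}, {1, 5, 3}}

theorem result : ∃ E₁ E₂ : Finset (Finset (Fin 6)),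
    IsChainStructured E₁ ∧ IsChainStructured E₂ ∧ Isomorphic E₁ E₂ ∧
    TwoTwoEdges E₁ ∧ TwoTwoEdges E₂ ∧ ¬ HasCooperativeColouring E₁ E₂ := by
  have hc : Fintype.card (Fin 6) = 6 := rfl
  refine ⟨H1, H2, ?_, ?_, ?_, ?_, ?_, ?_⟩
  · let f : Fin 6 → Fin 6 := ![0, 1, 2, 3, 4, 5]
    let σ : Fin 6 ≃ Fin 6 := ⟨f, f, by decide, by decide⟩
    refine ⟨σ, ?_⟩
    have : ∀ e ∈ H1, ∃ (i : ZMod 6) (l : Fin 7), 1 ≤ l.val ∧
        e = (range l.val).image (fun j : ℕ => (![0, 1, 2, 3, 4, 5] : Fin 6 → Fin 6)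
          (i + (j : ZMod 6) : ZMod 6)) := by decide +kernel
    intro e he
    obtain ⟨i, l, h1, h2⟩ := this e he
    exact ⟨i, l.val, h1, by rw [hc]; omega, h2⟩
  · let f : Fin 6 → Fin 6 := ![0, 2, 4, 1, 5, 3]
    let g : Fin 6 → Fin 6 := ![0, 3, 1, 5, 2, 4]
    let σ : Fin 6 ≃ Fin 6 := ⟨f, g, by decide, by decide⟩
    refine ⟨σ, ?_⟩
    have : ∀ e ∈ H2, ∃ (i : ZMod 6) (l : Fin 7), 1 ≤ l.val ∧
        e = (range l.val).image (fun j : ℕ => (![0, 2, 4, 1, 5, 3] : Fin 6 → Fin 6)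
          (i + (j : ZMod 6) : ZMod 6)) := by decide +kernel
    intro e he
    obtain ⟨i, l, h1, h2⟩ := this e he
    exact ⟨i, l.val, h1, by rw [hc]; omega, h2⟩
  · have : ∃ φ : Equiv.Perm (Fin 6), H2 = H1.image (fun e => e.image φ) := by
      let f : Fin 6 → Fin 6 := ![3, 0, 2, 4, 1, 5]
      let g : Fin 6 → Fin 6 := ![1, 4, 2, 0, 3, 5]
      refine ⟨⟨f, g, by decide, by decide⟩, ?_⟩
      decide +kernel
    exact this
  · refine ⟨by decide +kernel, by decide +kernel⟩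
  · refine ⟨by decide +kernel, by decide +kernel⟩
  · rintro ⟨I₁, I₂, h1, h2, h3⟩
    have key : ∀ I : Finset (Fin 6), (∃ e ∈ H1, e ⊆ I) ∨ ∃ e ∈ H2, e ⊆ Iᶜ := by decide +kernel
    rcases key I₁ with ⟨e, he, h⟩ | ⟨e, he, h⟩
    · exact h1 e he h
    · refine h2 e he (h.trans ?_)
      intro x hx
      have : x ∈ I₁ ∪ I₂ := by rw [h3]; exact mem_univ x
      rcases mem_union.mp this with h4 | h4
      · exact absurd h4 (mem_compl.mp hx)
      · exact h4

end Pool.Agent.Results.MP_ace2a1_co.TwoEdgesFail
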